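import Pool.Agent.H34.N6V.Targets
import Pool.Agent.H32.N6E.EGST
import Pool.Agent.H5.N6E.ERED

/-!
# MP_63b6b1_nt, row VGSF: the polynomial at the auxiliary place, several factors

Adapted from row EGST of helper32.
-/

set_option autoImplicit false

open Polynomial NumberField IsDedekindDomain Pool.Agent.H32.QC Pool.Agent.H34.N6
  Pool.Agent.H13.DEV Pool.Agent.H34.N6V Pool.Agent.H32.N6E

namespace Pool.Agent.H46.N6V

theorem pf_GSF (hFAD : T_FAD) (hBEL : T_BEL) : T_GSF := by
  classical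
  intro k ι _ _ _ L _ _ _ P E D e N j₀ ws c hFam hGen hGood hN hc hPc
  obtain ⟨A, hAm, hAI, hAd, hAlt, hAder, hAoth, hAmx, hAdiv⟩ :=
    hFAD k (L j₀) (P j₀) D (e j₀) ws (hFam.mon j₀) (hGen j₀) (hGood.each j₀)
  obtain ⟨π, hπ, hπmx⟩ := exists_unif (ws.under (𝓞 k))
  have hmx := hAmx π hπ hπmx
  have hPe : ∀ j, aeval (e j) (P j) = 0 := by
    intro j
    rw [← (hGen j).mp]
    exact minpoly.aeval k (e j)
  have hPI : ∀ j, Int (ws.under (𝓞 k)) (P j) := fun j => (hGood.each j).intP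
  -- the value at `c` is a unit
  have hle : ∀ j, ‖ic (ws.under (𝓞 k)) (eval c (P j))‖ ≤ 1 := by
    intro j
    have h1 : ic (ws.under (𝓞 k)) (eval c (P j)) =
        eval (ic (ws.under (𝓞 k)) c) ((P j).map (ic (ws.under (𝓞 k)))) := by
      rw [eval_map, eval₂_hom]
    rw [h1]
    exact ((int_iff _ _).1 (hPI j)).eval_le hc
  have hPcj : ∀ j, ‖ic (ws.under (𝓞 k)) (eval c (P j))‖ = 1 := by
    intro j
    refine le_antisymm (hle j) ?_
    have h1 := hPc
    rw [eval_prod, map_prod, norm_prod, ← Finset.mul_prod_erase Finset.univ _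
      (Finset.mem_univ j)] at h1
    have h2 : ∏ x ∈ Finset.univ.erase j, ‖ic (ws.under (𝓞 k)) (eval c (P x))‖ ≤ 1 :=
      Finset.prod_le_one (fun _ _ => norm_nonneg _) fun x _ => hle x
    calc (1 : ℝ) = _ := h1.symm
      _ ≤ ‖ic (ws.under (𝓞 k)) (eval c (P j))‖ * 1 :=
          mul_le_mul_of_nonneg_left h2 (norm_nonneg _)
      _ = _ := mul_one _
  -- integrality at the places above
  have heaj : ∀ j, ∀ w : FPl (L j), w.under (𝓞 k) = ws.under (𝓞 k) → ‖ic w (e j)‖ ≤ 1 ∧
      ‖kc k w c‖ ≤ 1 ∧ ‖ic w (e j) - kc k w c‖ = 1 ∧ ‖kc k w π‖ < 1 := by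
    intro j w hw
    have hPIw : IP ((P j).map (kc k w)) := ip_kc hBEL w (by rw [hw]; exact hPI j)
    have h1 : eval (ic w (e j)) ((P j).map (kc k w)) = 0 := by
      rw [← ic_aeval, hPe j, map_zero]
    have h2 : ‖ic w (e j)‖ ≤ 1 := hPIw.root_le ((hFam.mon j).map _) h1
    have h3 : ‖kc k w c‖ ≤ 1 := (((hBEL k (L j) w).1 c).1).2 (by rw [hw]; exact hc)
    have h4 : ‖kc k w (eval c (P j))‖ = 1 := by
      apply le_antisymm
      · exact (((hBEL k (L j) w).1 (eval c (P j))).1).2 (by rw [hw]; exact hle j)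
      · by_contra hcon
        push Not at hcon
        have := (((hBEL k (L j) w).1 (eval c (P j))).2).1 hcon
        rw [hw, hPcj j] at this
        exact lt_irrefl _ this
    have h5 : kc k w (eval c (P j)) = eval (kc k w c) ((P j).map (kc k w)) := by
      rw [eval_map, eval₂_hom]
    refine ⟨h2, h3, ?_, (((hBEL k (L j) w).1 π).2).2 (by rw [hw]; exact hπ)⟩
    apply le_antisymm (norm_sub_le' h2 h3)
    have h6 := hPIw.eval_sub_le h3 h2
    rw [h1, sub_zero, ← h5, h4, norm_sub_rev] at h6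
    exact h6
  -- the factor is a unit at the places of the other fields
  have hAj : ∀ j, j ≠ j₀ → ∀ w : FPl (L j), w.under (𝓞 k) = ws.under (𝓞 k) →
      ‖ic w (aeval (e j) A)‖ = 1 := by
    intro j hj w hw
    have hej := (heaj j w hw).1
    have hAle : ‖ic w (aeval (e j) A)‖ ≤ 1 :=
      Pool.Agent.H5.N6E.int_le w (e j) hej A (by rw [hw]; exact hAI)
    by_contra hne
    have hlt : ‖ic w (aeval (e j) A)‖ < 1 := lt_of_le_of_ne hAle hne
    obtain ⟨Cc, B, hC, hQ, hB⟩ := hAdiv (P j₀) (hPI j₀) (by rw [hPe j₀, map_zero, norm_zero]; exact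
      zero_lt_one)
    have h1 : ‖ic w (aeval (e j) (P j₀))‖ < 1 := by
      rw [hQ, map_add, map_add, map_mul, map_mul]
      refine (IsUltrametricDist.norm_add_le_max _ _).trans_lt (max_lt ?_ ?_)
      · rw [norm_mul]
        have h2 := Pool.Agent.H5.N6E.int_le w (e j) hej Cc (by rw [hw]; exact hC)
        calc ‖ic w (aeval (e j) A)‖ * ‖ic w (aeval (e j) Cc)‖ ≤ ‖ic w (aeval (e j) A)‖ * 1 :=
              mul_le_mul_of_nonneg_left h2 (norm_nonneg _)
          _ < 1 := by rw [mul_one]; exact hlt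
      · exact Pool.Agent.H5.N6E.int_lt w (e j) hej B (by rw [hw]; exact hB)
    have hE1 : Int (ws.under (𝓞 k)) (E j₀ - 1) := by
      rw [int_iff, Polynomial.map_sub, Polynomial.map_one, sub_eq_add_neg]
      refine IP.add ((int_iff _ _).1 (hGood.idem j₀)) ?_
      have : (-1 : ((ws.under (𝓞 k)).adicCompletion k)[X]) = C (-1) := by simp
      rw [this]
      exact IP.C (by rw [norm_neg, norm_one])
    obtain ⟨F, B', hF, -, hEq, hdeg⟩ := Pool.Agent.H5.N6E.int_div (ws.under (𝓞 k)) (P j₀)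
      (E j₀ - 1) (hFam.mon j₀) (hPI j₀) hE1
    have hB0 : B' = 0 := by
      refine eq_zero_of_dvd_of_degree_lt ?_ hdeg
      have h3 : B' = (E j₀ - 1) - P j₀ * F := by rw [hEq]; ring
      rw [h3]
      exact dvd_sub (hFam.one j₀) (dvd_mul_right _ _)
    rw [hB0, add_zero] at hEq
    have hEj : aeval (e j) (E j₀) = 0 := by
      obtain ⟨T, hT⟩ := hFam.zero j j₀ hj
      rw [hT, map_mul, hPe j, zero_mul]
    have h4 := congrArg (fun Q => ic w (aeval (e j) Q)) hEq
    simp only [map_sub, map_one, hEj, map_zero, zero_sub, map_neg, map_mul] at h4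
    have h5 := congrArg norm h4
    rw [norm_neg, norm_one, norm_mul] at h5
    have h6 := Pool.Agent.H5.N6E.int_le w (e j) hej F (by rw [hw]; exact hF)
    have h7 : ‖ic w (aeval (e j) (P j₀))‖ * ‖ic w (aeval (e j) F)‖ ≤
        ‖ic w (aeval (e j) (P j₀))‖ * 1 := mul_le_mul_of_nonneg_left h6 (norm_nonneg _)
    linarith
  have hea := heaj j₀
  obtain ⟨hes, hcs, hecs, hπs⟩ := hea ws rfl
  have hAN : A.natDegree ≤ N := by
    refine hAd.trans (le_trans ?_ hN)
    rw [natDegree_prod_of_monic _ _ fun j _ => hFam.mon j]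
    exact Finset.single_le_sum (f := fun j => (P j).natDegree) (fun _ _ => Nat.zero_le _)
      (Finset.mem_univ j₀)
  have hothj : ∀ q : k, (∀ j, ∀ w : FPl (L j), w.under (𝓞 k) = ws.under (𝓞 k) → ‖kc k w q‖ < 1) →
      ∀ j, j ≠ j₀ → ∀ w : FPl (L j), w.under (𝓞 k) = ws.under (𝓞 k) →
        ‖ic w (aeval (e j) (A * (X - C c) ^ (N - A.natDegree) + C q))‖ = 1 := by
    intro q hq j hj w hw
    have h1 : ic w (aeval (e j) (A * (X - C c) ^ (N - A.natDegree) + C q)) =
        ic w (aeval (e j) A) * (ic w (e j) - kc k w c) ^ (N - A.natDegree) + kc k w q := by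
      rw [ic_aeval, ic_aeval]
      simp only [Polynomial.map_add, Polynomial.map_mul, Polynomial.map_pow, Polynomial.map_sub,
        map_X, map_C, eval_add, eval_mul, eval_pow, eval_sub, eval_X, eval_C]
    rw [h1]
    apply norm_add_one _ (hq j w hw)
    rw [norm_mul, norm_pow, hAj j hj w hw, (heaj j w hw).2.2.1, one_pow, one_mul]
  set m := N - A.natDegree with hm
  set G₁ := A * (X - C c) ^ m with hG₁
  have hG₁m : G₁.Monic := hAm.mul ((monic_X_sub_C c).pow m)
  have hG₁d : G₁.natDegree = N := by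
    rw [hG₁, hAm.natDegree_mul ((monic_X_sub_C c).pow m), natDegree_pow, natDegree_X_sub_C]
    omega
  have hG₁I : ∀ q : k, ‖ic (ws.under (𝓞 k)) q‖ ≤ 1 → Int (ws.under (𝓞 k)) (G₁ + C q) := by
    intro q hq
    rw [int_iff, Polynomial.map_add, hG₁, Polynomial.map_mul, Polynomial.map_pow,
      Polynomial.map_sub, map_X, map_C, map_C]
    refine IP.add (IP.mul ((int_iff _ _).1 hAI) (IP.pow ?_ _)) (IP.C hq)
    rw [sub_eq_add_neg, ← C_neg]
    exact IP.add IP.X (IP.C (by rw [norm_neg]; exact hc))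
  have hval : ∀ (w : FPl (L j₀)) (q : k), ic w (aeval (e j₀) (G₁ + C q)) =
      ic w (aeval (e j₀) A) * (ic w (e j₀) - kc k w c) ^ m + kc k w q := by
    intro w q
    rw [ic_aeval, ic_aeval, hG₁]
    simp only [Polynomial.map_add, Polynomial.map_mul, Polynomial.map_pow, Polynomial.map_sub,
      map_X, map_C, eval_add, eval_mul, eval_pow, eval_sub, eval_X, eval_C]
  have hder : ∀ q : k, ‖ic ws (aeval (e j₀) (derivative (G₁ + C q)))‖ = 1 := by
    intro q
    have h1 : ic ws (aeval (e j₀) (derivative (G₁ + C q))) =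
        eval (ic ws (e j₀)) (derivative (A.map (kc k ws) * (X - C (kc k ws c)) ^ m + C (kc k ws q))) := by
      rw [ic_aeval, hG₁, ← derivative_map]
      simp only [Polynomial.map_add, Polynomial.map_mul, Polynomial.map_pow, Polynomial.map_sub,
        map_X, map_C]
    rw [h1]
    apply der_aux m _ _ hecs
    · rw [← ic_aeval]
      exact hAlt
    · rw [derivative_map, ← ic_aeval]
      exact hAder
  have hoth : ∀ q : k, (∀ w : FPl (L j₀), w.under (𝓞 k) = ws.under (𝓞 k) → ‖kc k w q‖ < 1) →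
      ∀ w : FPl (L j₀), w.under (𝓞 k) = ws.under (𝓞 k) → w ≠ ws →
        ‖ic w (aeval (e j₀) (G₁ + C q))‖ = 1 := by
    intro q hq w hw hne
    rw [hval]
    apply norm_add_one _ (hq w hw)
    rw [norm_mul, norm_pow, hAoth w hw hne, (hea w hw).2.2.1, one_pow, one_mul]
  have hG₁v : ic ws (aeval (e j₀) G₁) = ic ws (aeval (e j₀) A) * (ic ws (e j₀) - kc k ws c) ^ m := by
    have := hval ws 0
    rw [C_0, add_zero, map_zero, add_zero] at this
    exact this
  have hG₁lt : ‖ic ws (aeval (e j₀) G₁)‖ < 1 := by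
    rw [hG₁v, norm_mul, norm_pow, hecs, one_pow, mul_one]
    exact hAlt
  by_cases hmax : ∀ x : ws.adicCompletion (L j₀), ‖x‖ < 1 → ‖x‖ ≤ ‖ic ws (aeval (e j₀) G₁)‖
  · refine ⟨G₁, ⟨hG₁m, hG₁d, ?_, hG₁lt, hmax, ?_, ?_⟩, ?_⟩
    · have := hG₁I 0 (by rw [map_zero, norm_zero]; exact zero_le_one)
      rw [C_0, add_zero] at this
      exact this
    · have := hder 0
      rw [C_0, add_zero] at this
      exact this
    · have := hoth 0 (fun w _ => by rw [map_zero, norm_zero]; exact zero_lt_one)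
      rw [C_0, add_zero] at this
      exact this
    · have := hothj 0 (fun j w _ => by rw [map_zero, norm_zero]; exact zero_lt_one)
      rw [C_0, add_zero] at this
      exact this
  · push Not at hmax
    obtain ⟨x, hx1, hx2⟩ := hmax
    have h1 : ‖ic ws (aeval (e j₀) G₁)‖ < ‖kc k ws π‖ := hx2.trans_le (hmx x hx1)
    have h2 : ‖ic ws (aeval (e j₀) (G₁ + C π))‖ = ‖kc k ws π‖ := by
      rw [hval, ← hG₁v, IsUltrametricDist.norm_add_eq_max_of_norm_ne_norm h1.ne,
        max_eq_right h1.le]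
    have hN1 : 0 < N := by
      by_contra hcon
      have h3 : G₁.natDegree = 0 := by omega
      have h4 : G₁ = 1 := eq_one_of_monic_natDegree_zero hG₁m h3
      rw [h4, map_one, map_one, norm_one] at hG₁lt
      exact lt_irrefl _ hG₁lt
    refine ⟨G₁ + C π, ⟨?_, ?_, hG₁I π hπ.le, ?_, ?_, hder π,
      hoth π fun w hw => (hea w hw).2.2.2⟩, hothj π fun j w hw => (heaj j w hw).2.2.2⟩
    · apply hG₁m.add_of_left
      rw [degree_eq_natDegree hG₁m.ne_zero, hG₁d]
      refine degree_C_le.trans_lt ?_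
      exact_mod_cast hN1
    · rw [natDegree_add_C]
      exact hG₁d
    · rw [h2]
      exact hπs
    · intro y hy
      rw [h2]
      exact hmx y hy

end Pool.Agent.H46.N6V
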